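import Pool.Agent.Helper99.MKV.GoalsC

/-! # MKV, packet FIN: the double sum with a smooth kernel -/

open Finset

namespace Pool.Agent.Helper77.MKV

open Pool.Agent.Helper99.MKV Pool.Agent.Helper99.ERW
open Pool.Agent.Helper99.EXC (La Df nm Bx hk)

lemma pow_choice (c ε : ℝ) (hε : 0 < ε) : ∃ M0 : ℕ, ∀ M, M0 ≤ M → c / 2 ^ M ≤ ε := by
  obtain ⟨n, hn⟩ := exists_nat_ge (c / ε)
  refine ⟨n, fun M hM => ?_⟩
  have h1 : (n : ℝ) ≤ 2 ^ M := by
    have h2 : n < 2 ^ n := Nat.lt_two_pow_self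
    have h3 : 2 ^ n ≤ 2 ^ M := Nat.pow_le_pow_right (by norm_num) hM
    have h4 : n ≤ 2 ^ M := by omega
    exact_mod_cast h4
  have h2 : c ≤ 2 ^ M * ε := by
    have := (div_le_iff₀ hε).1 hn
    nlinarith
  rw [div_le_iff₀ (by positivity)]
  linarith

lemma Bx_mono (b : ℕ) {k l : ℕ} (h : k ≤ l) : Bx b k ⊆ Bx b l := by
  intro x hx
  unfold Bx at hx ⊢
  rw [mem_box] at hx ⊢
  intro i
  refine (hx i).trans ?_
  have : b * 2 ^ k ≤ b * 2 ^ l := Nat.mul_le_mul_left _ (Nat.pow_le_pow_right (by norm_num) h)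
  exact_mod_cast this

lemma nm_nonneg (x : Site 2) : 0 ≤ nm x := le_max_of_le_left (abs_nonneg _)

lemma Gk_nonneg (b k : ℕ) (x : Site 2) : 0 ≤ Gk b k x := by
  have := nm_nonneg x
  unfold Gk
  split_ifs <;> positivity

lemma Gk_in {b k : ℕ} {x : Site 2} (h : x ∈ Bx b (k + 1)) : Gk b k x = 1 / 2 ^ k := by
  unfold Gk; rw [if_pos h]

lemma arith {A B CF CS P γ X Y : ℝ} (hA : 0 ≤ A) (hB : 0 ≤ B) (hCF : 0 ≤ CF) (hCS : 0 ≤ CS)
    (hP : 0 ≤ P) (hγ : 0 ≤ γ) (hX : 0 ≤ X) (hY : 0 ≤ Y) :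
    γ * (CF * A) + (γ * (CS * A) + CF * A * X + 2 * B * A * Y) +
      (γ * (2 * B * (CS * A)) + CF * A * (P * Y)) ≤
      A * ((CF + CS + 2 * B * CS + 2 * B + CF * P) * (γ + X + Y)) := by
  have e : A * ((CF + CS + 2 * B * CS + 2 * B + CF * P) * (γ + X + Y)) -
    (γ * (CF * A) + (γ * (CS * A) + CF * A * X + 2 * B * A * Y) +
    (γ * (2 * B * (CS * A)) + CF * A * (P * Y))) =
    A * ((2 * B + CF * P) * γ + (CS + 2 * B * CS + 2 * B + CF * P) * X +
      (CF + CS + 2 * B * CS) * Y) := by ring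
  have e2 : 0 ≤ A * ((2 * B + CF * P) * γ + (CS + 2 * B * CS + 2 * B + CF * P) * X +
      (CF + CS + 2 * B * CS) * Y) := by positivity
  linarith

lemma cf_le {CL A' : ℝ} (hCL : 0 ≤ CL) (hA' : 0 ≤ A') {k m' : ℕ} (hk : 1 ≤ k) (s : ℕ) :
    0 ≤ CL * A' / ((k + m' : ℕ) : ℝ) * ((s : ℝ) + 1) ∧
    CL * A' / ((k + m' : ℕ) : ℝ) * ((s : ℝ) + 1) ≤ CL * A' / k * (s + 1) := by
  have hk0 : (0 : ℝ) < k := by exact_mod_cast hk
  have hkk : CL * A' / ((k + m' : ℕ) : ℝ) ≤ CL * A' / k := by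
    apply div_le_div_of_nonneg_left (by positivity) hk0
    push_cast
    have : (0 : ℝ) ≤ m' := Nat.cast_nonneg _
    linarith
  exact ⟨by positivity, mul_le_mul_of_nonneg_right hkk (by positivity)⟩

lemma pt_le {γ B CF A P w g g' r : ℝ} (hγ : 0 ≤ γ) (hB : 0 ≤ B) (hF : 0 ≤ CF * A)
    (h2 : w * g' ≤ w) (h3 : r * g' ≤ P * (r * g)) :
    (γ * (2 * B * w) + CF * A * r) * g' ≤ γ * (2 * B) * w + CF * A * (P * (r * g)) := by
  have h4 := mul_le_mul_of_nonneg_left h2 (show 0 ≤ γ * (2 * B) by positivity)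
  have h5 := mul_le_mul_of_nonneg_left h3 hF
  have e : (γ * (2 * B * w) + CF * A * r) * g' = γ * (2 * B) * (w * g') + CF * A * (r * g') := by
    ring
  rw [e]
  exact add_le_add h4 h5

section

variable {E ι : Type} [Fintype ι] {U : Sys E ι} {a B : ℝ} {S : Site 2 → E → ℝ}

lemma dd_abs (hD : Dat U a B S) (t : MSt E) : |dd U a t| ≤ 1 := by
  have h1 := hD.ok.f0 t.1 (t.2 t.1)
  have h2 := hD.ok.f1 t.1 (t.2 t.1)
  have h3 := hD.a0
  have h4 := hD.a1
  unfold dd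
  rw [abs_le]; constructor <;> linarith

/-- the weight of a site of the box -/
noncomputable def wt (b k : ℕ) (A : ℝ) (x : Site 2) : ℝ := if x ∈ Bx b k then A / 4 ^ k else 0

lemma wt_nonneg {b k : ℕ} {A : ℝ} (hA : 0 ≤ A) (x : Site 2) : 0 ≤ wt b k A x := by
  unfold wt; split_ifs <;> positivity

lemma wt_sum {b k : ℕ} {A CS : ℝ} (hA : 0 ≤ A) (hcard : ((Bx b k).card : ℝ) ≤ CS * 4 ^ k) (s : ℕ) :
    ∑ x ∈ Bx b s, wt b k A x ≤ CS * A := by
  unfold wt
  rw [Finset.sum_ite_mem, Finset.sum_const, nsmul_eq_mul]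
  have h1 : ((Bx b s ∩ Bx b k).card : ℝ) ≤ (Bx b k).card := by
    exact_mod_cast Finset.card_le_card Finset.inter_subset_right
  have h2 : 0 ≤ A / 4 ^ k := by positivity
  calc ((Bx b s ∩ Bx b k).card : ℝ) * (A / 4 ^ k) ≤ (CS * 4 ^ k) * (A / 4 ^ k) :=
        mul_le_mul_of_nonneg_right (h1.trans hcard) h2
    _ = CS * A := by field_simp

/-- the drift of the charge of a cell -/
lemma drU (hDRG : DRG_stmt) (hD : Dat U a B S) {b k : ℕ} {A : ℝ} {v : Site 2 → ℝ} (hv : Wt b k A v)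
    (D : Finset (Site 2)) (hDk : D ⊆ Bx b k) (t : MSt E) : |Dr U (VV S D v) t| ≤ wt b k A t.1 := by
  rw [(hDRG E ι U hD.ok t).1 S D v]
  by_cases h : t.1 ∈ D
  · rw [if_pos h, hD.ps]
    unfold wt
    rw [if_pos (hDk h), abs_mul]
    have h1 := dd_abs hD t
    unfold dd at h1
    calc |v t.1| * |U.f t.1 (t.2 t.1) - a| ≤ (A / 4 ^ k) * 1 :=
          mul_le_mul (hv.2.2.1 _) h1 (abs_nonneg _) ((abs_nonneg _).trans (hv.2.2.1 t.1))
      _ = A / 4 ^ k := mul_one _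
  · rw [if_neg h, abs_zero]
    exact wt_nonneg hv.1 _

/-- the increments of the charge of a cell -/
lemma incU (hINC : INC_stmt) (hD : Dat U a B S) {b k : ℕ} {A : ℝ} {v : Site 2 → ℝ} (hv : Wt b k A v)
    (D : Finset (Site 2)) (hDk : D ⊆ Bx b k) (t : MSt E) (i : ι) (e : Dir 2) :
    |VV S D v (Pool.Agent.Helper99.MKV.nxt U t i e) - VV S D v t| ≤ 2 * B * wt b k A t.1 := by
  have hB := hD.b1
  rw [(hINC E ι U t i e).1 S D v]
  by_cases h : t.1 ∈ D
  · rw [if_pos h]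
    unfold wt
    rw [if_pos (hDk h), abs_mul]
    have h1 := hD.bd t.1 (U.nx t.1 (t.2 t.1) i)
    have h2 := hD.bd t.1 (t.2 t.1)
    have h3 : |S t.1 (U.nx t.1 (t.2 t.1) i) - S t.1 (t.2 t.1)| ≤ 2 * B := by
      refine (abs_sub _ _).trans ?_
      linarith
    calc |v t.1| * |S t.1 (U.nx t.1 (t.2 t.1) i) - S t.1 (t.2 t.1)| ≤ (A / 4 ^ k) * (2 * B) :=
          mul_le_mul (hv.2.2.1 _) h3 (abs_nonneg _) ((abs_nonneg _).trans (hv.2.2.1 t.1))
      _ = 2 * B * (A / 4 ^ k) := by ring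
  · rw [if_neg h, abs_zero]
    have := wt_nonneg (b := b) (k := k) hv.1 t.1
    positivity

/-- the contribution of one cell -/
lemma cell (hINC : INC_stmt) (hDRG : DRG_stmt) {b : ℕ}
    {k1 : ℕ} (hD : Dat U a B S)
    {CS CL CF A' : ℝ} (hCS : 0 ≤ CS) (hCL : 0 ≤ CL) (hCF : 0 ≤ CF) (hA' : 0 ≤ A')
    (hL : ∀ (K s : ℕ), k1 ≤ K → 1 ≤ K → K ≤ s → ∀ (N : ℕ) (s0 : MSt E) (A : ℝ) (v : Site 2 → ℝ),
      Wt b K A v → ∀ (G : MSt E → ℝ) (γ : ℝ) (δ ρ : Site 2 → ℝ), (∀ t, |G t| ≤ γ) →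
      (∀ x, 0 ≤ δ x) → (∀ x, 0 ≤ ρ x) → (∀ t, t.1 ∈ Bx b (s + 1) → |Dr U G t| ≤ δ t.1) →
      (∀ t, t.1 ∈ Bx b (s + 1) → ∀ (i : ι) (e : Dir 2), |G (nxt U t i e) - G t| ≤ ρ t.1) →
      |Rw U (Bx b (s + 1)) N (fun t => G t * Dr U (VV S (Bx b K) v) t) s0| ≤
        CL * A / K * (s + 1) * (γ + ∑ x ∈ Bx b (s + 1), δ x +
          ∑ x ∈ Bx b (s + 1), ρ x * Gk b K x))
    {k m' s : ℕ} (hk1 : k1 ≤ k) (hk : 1 ≤ k) (hks : k + m' ≤ s)
    (hcard : ((Bx b k).card : ℝ) ≤ CS * 4 ^ k)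
    (h8 : ∀ x, Gk b (k + m') x ≤ (1 + b * 2 ^ (m' + 1)) ^ 2 * Gk b k x)
    (N : ℕ) (s0 : MSt E) {A : ℝ} {v : Site 2 → ℝ} (hv : Wt b k A v)
    {G : MSt E → ℝ} {γ : ℝ} {δ ρ : Site 2 → ℝ} (hG : ∀ t, |G t| ≤ γ)
    (hδ : ∀ x, 0 ≤ δ x) (hρ : ∀ x, 0 ≤ ρ x)
    (hdG : ∀ t, t.1 ∈ Bx b (s + 1) → |Dr U G t| ≤ δ t.1)
    (hiG : ∀ t, t.1 ∈ Bx b (s + 1) → ∀ (i : ι) (e : Dir 2), |G (nxt U t i e) - G t| ≤ ρ t.1)
    (D : Finset (Site 2)) (hDk : D ⊆ Bx b k) (hU : ∀ t, |VV S D v t| ≤ CF * A)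
    (w : Site 2 → ℝ) (hw : Wt b (k + m') A' w) :
    |Rw U (Bx b (s + 1)) N (fun t => G t * (dd U a t * (VV S D v t * w t.1))) s0| ≤
      CL * A' / k * (s + 1) * (A * ((CF + CS + 2 * B * CS + 2 * B +
        CF * (1 + b * 2 ^ (m' + 1)) ^ 2) * (γ + ∑ x ∈ Bx b (s + 1), δ x +
          ∑ x ∈ Bx b (s + 1), ρ x * Gk b k x))) := by
  have hB := hD.b1
  have hA0 : 0 ≤ A := hv.1
  have hγ : 0 ≤ γ := (abs_nonneg _).trans (hG s0)
  have hdr : ∀ t : MSt E, dd U a t * w t.1 = Dr U (VV S (Bx b (k + m')) w) t := by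
    intro t
    rw [(hDRG E ι U hD.ok t).1 S (Bx b (k + m')) w]
    by_cases h : t.1 ∈ Bx b (k + m')
    · rw [if_pos h, hD.ps]; unfold dd; ring
    · rw [if_neg h, hw.2.1 _ h, mul_zero]
  have heq : (fun t => G t * (dd U a t * (VV S D v t * w t.1))) =
      fun t => (G t * VV S D v t) * Dr U (VV S (Bx b (k + m')) w) t := by
    funext t
    rw [← hdr t]; ring
  rw [heq]
  -- the data for the product
  set δ' : Site 2 → ℝ := fun x => γ * wt b k A x + CF * A * δ x + ρ x * (2 * B * wt b k A x) with hδ'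
  set ρ' : Site 2 → ℝ := fun x => γ * (2 * B * wt b k A x) + CF * A * ρ x with hρ'
  have hw0 : ∀ x, 0 ≤ wt b k A x := fun x => wt_nonneg hA0 x
  have hB0 : 0 ≤ 2 * B := by linarith
  have hFA : 0 ≤ CF * A := mul_nonneg hCF hA0
  have hδ'0 : ∀ x, 0 ≤ δ' x := fun x =>
    add_nonneg (add_nonneg (mul_nonneg hγ (hw0 x)) (mul_nonneg hFA (hδ x)))
      (mul_nonneg (hρ x) (mul_nonneg hB0 (hw0 x)))
  have hρ'0 : ∀ x, 0 ≤ ρ' x := fun x =>
    add_nonneg (mul_nonneg hγ (mul_nonneg hB0 (hw0 x))) (mul_nonneg hFA (hρ x))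
  have hmain := hL (k + m') s (by omega) (by omega) hks N s0 A' w hw (fun t => G t * VV S D v t)
    (γ * (CF * A)) δ' ρ' ?_ ?_ ?_ ?_ ?_
  · refine hmain.trans ?_
    have hs1 : ∑ x ∈ Bx b (s + 1), δ' x ≤ γ * (CS * A) + CF * A * ∑ x ∈ Bx b (s + 1), δ x +
        2 * B * A * ∑ x ∈ Bx b (s + 1), ρ x * Gk b k x := by
      have h1 : ∑ x ∈ Bx b (s + 1), δ' x = γ * ∑ x ∈ Bx b (s + 1), wt b k A x +
          CF * A * ∑ x ∈ Bx b (s + 1), δ x + ∑ x ∈ Bx b (s + 1), ρ x * (2 * B * wt b k A x) := by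
        rw [hδ', Finset.sum_add_distrib, Finset.sum_add_distrib, Finset.mul_sum, Finset.mul_sum]
      have h2 : ∑ x ∈ Bx b (s + 1), ρ x * (2 * B * wt b k A x) ≤
          2 * B * A * ∑ x ∈ Bx b (s + 1), ρ x * Gk b k x := by
        rw [Finset.mul_sum]
        refine Finset.sum_le_sum fun x _ => ?_
        have h3 : wt b k A x ≤ A * Gk b k x := by
          unfold wt
          split_ifs with hx
          · rw [Gk_in (Bx_mono b (Nat.le_succ k) hx)]
            have h4 : (1 : ℝ) / 4 ^ k ≤ 1 / 2 ^ k := by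
              apply one_div_le_one_div_of_le (by positivity)
              exact pow_le_pow_left₀ (by norm_num) (by norm_num) k
            calc A / 4 ^ k = A * (1 / 4 ^ k) := by ring
              _ ≤ A * (1 / 2 ^ k) := mul_le_mul_of_nonneg_left h4 hA0
          · exact mul_nonneg hA0 (Gk_nonneg b k x)
        calc ρ x * (2 * B * wt b k A x) ≤ ρ x * (2 * B * (A * Gk b k x)) := by
              refine mul_le_mul_of_nonneg_left ?_ (hρ x)
              exact mul_le_mul_of_nonneg_left h3 (by positivity)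
          _ = 2 * B * A * (ρ x * Gk b k x) := by ring
      have h3 := mul_le_mul_of_nonneg_left (wt_sum (b := b) (k := k) hA0 hcard (s + 1)) hγ
      rw [h1]
      linarith
    have hs2 : ∑ x ∈ Bx b (s + 1), ρ' x * Gk b (k + m') x ≤ γ * (2 * B * (CS * A)) +
        CF * A * ((1 + b * 2 ^ (m' + 1)) ^ 2 * ∑ x ∈ Bx b (s + 1), ρ x * Gk b k x) := by
      have h1 : ∀ x ∈ Bx b (s + 1), ρ' x * Gk b (k + m') x ≤ γ * (2 * B) * wt b k A x +
          CF * A * ((1 + b * 2 ^ (m' + 1)) ^ 2 * (ρ x * Gk b k x)) := by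
        intro x _
        have h2 : wt b k A x * Gk b (k + m') x ≤ wt b k A x := by
          unfold wt
          split_ifs with hx
          · rw [Gk_in (Bx_mono b (by omega) hx)]
            have h4 : (1 : ℝ) / 2 ^ (k + m') ≤ 1 := by
              rw [div_le_one (by positivity)]
              exact one_le_pow₀ (by norm_num)
            have h5 : 0 ≤ A / 4 ^ k := by positivity
            calc A / 4 ^ k * (1 / 2 ^ (k + m')) ≤ A / 4 ^ k * 1 := mul_le_mul_of_nonneg_left h4 h5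
              _ = A / 4 ^ k := mul_one _
          · rw [zero_mul]
        have h3 : ρ x * Gk b (k + m') x ≤ (1 + b * 2 ^ (m' + 1)) ^ 2 * (ρ x * Gk b k x) := by
          calc ρ x * Gk b (k + m') x ≤ ρ x * ((1 + b * 2 ^ (m' + 1)) ^ 2 * Gk b k x) :=
                mul_le_mul_of_nonneg_left (h8 x) (hρ x)
            _ = _ := by ring
        exact pt_le hγ (by linarith) hFA h2 h3
      refine (Finset.sum_le_sum h1).trans ?_
      rw [Finset.sum_add_distrib, ← Finset.mul_sum, ← Finset.mul_sum, ← Finset.mul_sum]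
      have h3 := mul_le_mul_of_nonneg_left (wt_sum (b := b) (k := k) hA0 hcard (s + 1))
        (show 0 ≤ γ * (2 * B) by positivity)
      linarith
    have hsδ : 0 ≤ ∑ x ∈ Bx b (s + 1), δ x := Finset.sum_nonneg fun x _ => hδ x
    have hsρ : 0 ≤ ∑ x ∈ Bx b (s + 1), ρ x * Gk b k x :=
      Finset.sum_nonneg fun x _ => mul_nonneg (hρ x) (Gk_nonneg b k x)
    obtain ⟨hcf, hcf2⟩ := cf_le hCL hA' (m' := m') hk s
    set X := ∑ x ∈ Bx b (s + 1), δ x with hX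
    set Y := ∑ x ∈ Bx b (s + 1), ρ x * Gk b k x with hY
    set P : ℝ := (1 + b * 2 ^ (m' + 1)) ^ 2 with hP
    have hP0 : 0 ≤ P := by positivity
    have htot : γ * (CF * A) + ∑ x ∈ Bx b (s + 1), δ' x + ∑ x ∈ Bx b (s + 1), ρ' x * Gk b (k + m') x ≤
        A * ((CF + CS + 2 * B * CS + 2 * B + CF * P) * (γ + X + Y)) := by
      have h1 := arith hA0 (show 0 ≤ B by linarith) hCF hCS hP0 hγ hsδ hsρ
      linarith
    calc CL * A' / ((k + m' : ℕ) : ℝ) * (s + 1) * (γ * (CF * A) + ∑ x ∈ Bx b (s + 1), δ' x +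
          ∑ x ∈ Bx b (s + 1), ρ' x * Gk b (k + m') x)
        ≤ CL * A' / ((k + m' : ℕ) : ℝ) * (s + 1) *
          (A * ((CF + CS + 2 * B * CS + 2 * B + CF * P) * (γ + X + Y))) :=
          mul_le_mul_of_nonneg_left htot hcf
      _ ≤ CL * A' / k * (s + 1) *
          (A * ((CF + CS + 2 * B * CS + 2 * B + CF * P) * (γ + X + Y))) := by
          refine mul_le_mul_of_nonneg_right hcf2 (le_trans ?_ htot)
          exact add_nonneg (add_nonneg (mul_nonneg hγ hFA) (Finset.sum_nonneg fun x _ => hδ'0 x))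
            (Finset.sum_nonneg fun x _ => mul_nonneg (hρ'0 x) (Gk_nonneg b (k + m') x))
  · intro t
    show |G t * VV S D v t| ≤ γ * (CF * A)
    rw [abs_mul]
    exact mul_le_mul (hG t) (hU t) (abs_nonneg _) hγ
  · exact hδ'0
  · exact hρ'0
  · intro t ht
    rw [Dr_mul hD.ok]
    have h1 : |G t * Dr U (VV S D v) t| ≤ γ * wt b k A t.1 := by
      rw [abs_mul]
      exact mul_le_mul (hG t) (drU hDRG hD hv D hDk t) (abs_nonneg _) hγ
    have h2 : |VV S D v t * Dr U G t| ≤ CF * A * δ t.1 := by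
      rw [abs_mul]
      exact mul_le_mul (hU t) (hdG t ht) (abs_nonneg _) (by positivity)
    have h3 : |Gam U G (VV S D v) t| ≤ ρ t.1 * (2 * B * wt b k A t.1) :=
      Gam_abs_le hD.ok (hρ _) (fun i e => hiG t ht i e) (fun i e => incU hINC hD hv D hDk t i e)
    show _ ≤ γ * wt b k A t.1 + CF * A * δ t.1 + ρ t.1 * (2 * B * wt b k A t.1)
    calc |G t * Dr U (VV S D v) t + VV S D v t * Dr U G t + Gam U G (VV S D v) t|
        ≤ |G t * Dr U (VV S D v) t + VV S D v t * Dr U G t| + |Gam U G (VV S D v) t| := abs_add_le _ _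
      _ ≤ |G t * Dr U (VV S D v) t| + |VV S D v t * Dr U G t| + |Gam U G (VV S D v) t| := by
          gcongr; exact abs_add_le _ _
      _ ≤ _ := by linarith
  · intro t ht i e
    have h1 : |G (nxt U t i e)| * |VV S D v (nxt U t i e) - VV S D v t| ≤
        γ * (2 * B * wt b k A t.1) :=
      mul_le_mul (hG _) (incU hINC hD hv D hDk t i e) (abs_nonneg _) hγ
    have h2 : |VV S D v t| * |G (nxt U t i e) - G t| ≤ CF * A * ρ t.1 :=
      mul_le_mul (hU t) (hiG t ht i e) (abs_nonneg _) (by positivity)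
    show |G (nxt U t i e) * VV S D v (nxt U t i e) - G t * VV S D v t| ≤
      γ * (2 * B * wt b k A t.1) + CF * A * ρ t.1
    have e1 : G (nxt U t i e) * VV S D v (nxt U t i e) - G t * VV S D v t =
        G (nxt U t i e) * (VV S D v (nxt U t i e) - VV S D v t) +
          VV S D v t * (G (nxt U t i e) - G t) := by ring
    rw [e1]
    refine (abs_add_le _ _).trans ?_
    rw [abs_mul, abs_mul]
    linarith

end

theorem FIN (hSMS : SMS_stmt) (hINC : INC_stmt) (hDRG : DRG_stmt) (hVIS : VIS_stmt)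
    (hLMA : LMA_stmt) (hFNW : FNW_stmt) (hFNE : FNE_stmt) : FIN_stmt := by
  intro κ C b B hκ hC hb hB η m hη
  obtain ⟨CS, hCS1, hcard, -, -, hS4, -, -, -, hS8⟩ := hSMS b hb
  obtain ⟨CV, hCV0, hV⟩ := hVIS κ C b B hκ hC hb hB
  obtain ⟨CL, hCL0, hL⟩ := hLMA κ C b B hκ hC hb hB
  obtain ⟨CF, hCF0, hF⟩ := hFNE κ C b B hκ hC hb hB
  have hCS0 : 0 ≤ CS := by linarith
  obtain ⟨m0, hm0⟩ := pow_choice (CV * (CF * CS * 2)) (η / 2) (by positivity)
  obtain ⟨m', hm'2, hm'0⟩ : ∃ m' : ℕ, 2 ≤ m' ∧ m0 ≤ m' := ⟨max 2 m0, le_max_left _ _, le_max_right _ _⟩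
  have hm' := hm0 m' hm'0
  obtain ⟨M, hM0⟩ := pow_choice (CV * (CF * CS * 8 ^ m * 4 ^ m')) (η / 2) (by positivity)
  have hM := hM0 M le_rfl
  obtain ⟨A', hA'0, hW⟩ := hFNW κ C b hC hb m m'
  set D : ℝ := CF + CS + 2 * B * CS + 2 * B + CF * (1 + b * 2 ^ (m' + 1)) ^ 2 with hD
  have hD0 : 0 ≤ D := by positivity
  obtain ⟨n0, hn0⟩ := exists_nat_ge (CF * 4 ^ M * (CL * A' * D))
  refine ⟨max n0 (max M m'), ?_⟩
  intro E ι _ U a S φ Φ k1 hDat hsc k s hkm hnk hk1 hks N s0 A v hv G γ δ ρ hG hδ hρ hdG hiG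
  have hn1 : n0 ≤ max n0 (max M m') := le_max_left _ _
  have hn2 : M ≤ max n0 (max M m') := (le_max_left _ _).trans (le_max_right _ _)
  have hn3 : m' ≤ max n0 (max M m') := (le_max_right _ _).trans (le_max_right _ _)
  set n := max n0 (max M m') with hn
  have hA0 : 0 ≤ A := hv.1
  have hγ : 0 ≤ γ := (abs_nonneg _).trans (hG s0)
  have hRt : Rt b k A v := ⟨hv.1, hv.2.1, hv.2.2.1⟩
  obtain ⟨hcells, hdec⟩ := hF E ι U a S φ Φ k1 hDat hsc m m' M k hkm hm'2 (by omega) A v hRt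
  set I := (Bx b k).image (cel (2 ^ (k - M))) with hI
  -- decomposition
  set err : MSt E → ℝ := fun t => fv Φ S b (k - m) k v t - ∑ α ∈ I,
      Uc S b k v (2 ^ (k - M)) α t * va Φ b m m' k (cor (2 ^ (k - M)) α) t.1 with herr
  have hsplit : (fun t => G t * (dd U a t * fv Φ S b (k - m) k v t)) = fun t =>
      G t * (dd U a t * err t) + ∑ α ∈ I, G t * (dd U a t *
        (Uc S b k v (2 ^ (k - M)) α t * va Φ b m m' k (cor (2 ^ (k - M)) α) t.1)) := by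
    funext t
    rw [herr, ← Finset.mul_sum, ← Finset.mul_sum]
    ring
  rw [hsplit, Rw_add (Bx b (s + 1)) N (fun t => G t * (dd U a t * err t)), Rw_sum]
  -- the error
  set g : Site 2 → ℝ := fun x => γ * ((if x ∈ Bx b (k + m') then CF * A * 8 ^ m / 2 ^ M / 4 ^ k else 0) +
      (if x ∈ Bx b (k + m' - 1) then 0 else CF * A * 2 ^ k / (1 + nm x) ^ 3)) with hg
  have hg0 : ∀ x, 0 ≤ g x := by
    intro x
    have := nm_nonneg x
    rw [hg]
    refine mul_nonneg hγ (add_nonneg ?_ ?_)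
    · show (0 : ℝ) ≤ if x ∈ Bx b (k + m') then CF * A * 8 ^ m / 2 ^ M / 4 ^ k else 0
      split_ifs <;> positivity
    · show (0 : ℝ) ≤ if x ∈ Bx b (k + m' - 1) then 0 else CF * A * 2 ^ k / (1 + nm x) ^ 3
      split_ifs <;> positivity
  have hE1 : |Rw U (Bx b (s + 1)) N (fun t => G t * (dd U a t * err t)) s0| ≤
      Rw U (Bx b (s + 1)) N (fun t => g t.1) s0 := by
    refine Rw_abs_le (Bx b (s + 1)) hDat.ok N (fun t _ => ?_) s0
    rw [abs_mul, abs_mul]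
    have h1 := (hdec t).2
    have h2 := dd_abs hDat t
    calc |G t| * (|dd U a t| * |err t|) ≤ γ * (1 * |err t|) := by
          refine mul_le_mul (hG t) ?_ (by positivity) hγ
          exact mul_le_mul_of_nonneg_right h2 (abs_nonneg _)
      _ = γ * |err t| := by rw [one_mul]
      _ ≤ g t.1 := mul_le_mul_of_nonneg_left h1 hγ
  have hE2 := hV E ι U a S φ Φ k1 hDat hsc s (by omega) N s0 g hg0
  have hE3 : ∑ x ∈ Bx b (s + 1), g x ≤ γ * (CF * A * 8 ^ m / 2 ^ M * (CS * 4 ^ m') +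
      CF * A * (CS * 2 / 2 ^ m')) := by
    rw [hg, ← Finset.mul_sum]
    refine mul_le_mul_of_nonneg_left ?_ hγ
    rw [Finset.sum_add_distrib]
    refine add_le_add ?_ ?_
    · rw [Finset.sum_ite_mem, Finset.sum_const, nsmul_eq_mul]
      have h1 : ((Bx b (s + 1) ∩ Bx b (k + m')).card : ℝ) ≤ (Bx b (k + m')).card := by
        exact_mod_cast Finset.card_le_card Finset.inter_subset_right
      have h2 := hcard (k + m')
      calc ((Bx b (s + 1) ∩ Bx b (k + m')).card : ℝ) * (CF * A * 8 ^ m / 2 ^ M / 4 ^ k)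
          ≤ (CS * 4 ^ (k + m')) * (CF * A * 8 ^ m / 2 ^ M / 4 ^ k) :=
            mul_le_mul_of_nonneg_right (h1.trans h2) (by positivity)
        _ = CF * A * 8 ^ m / 2 ^ M * (CS * 4 ^ m') := by
            rw [pow_add]; field_simp
    · have h1 : ∑ x ∈ Bx b (s + 1), (if x ∈ Bx b (k + m' - 1) then 0 else
          CF * A * 2 ^ k / (1 + nm x) ^ 3) =
          CF * A * 2 ^ k * ∑ x ∈ Bx b (s + 1) \ Bx b (k + m' - 1), 1 / (1 + nm x) ^ 3 := by
        rw [Finset.mul_sum, ← Finset.filter_notMem_eq_sdiff, Finset.sum_filter]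
        refine Finset.sum_congr rfl fun x _ => ?_
        by_cases hx : x ∈ Bx b (k + m' - 1)
        · rw [if_pos hx, if_neg (not_not.2 hx)]
        · rw [if_neg hx, if_pos hx]; ring
      rw [h1]
      have h2 := hS4 (k + m' - 1) (s + 1)
      calc CF * A * 2 ^ k * ∑ x ∈ Bx b (s + 1) \ Bx b (k + m' - 1), 1 / (1 + nm x) ^ 3
          ≤ CF * A * 2 ^ k * (CS / 2 ^ (k + m' - 1)) := mul_le_mul_of_nonneg_left h2 (by positivity)
        _ = CF * A * (CS * 2 / 2 ^ m') := by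
            have e : (2 : ℝ) ^ (k + m' - 1) * 2 = 2 ^ k * 2 ^ m' := by
              rw [← pow_succ, ← pow_add]
              congr 1
              omega
            have e2 : (2 : ℝ) ^ (k + m' - 1) = 2 ^ k * 2 ^ m' / 2 := by
              rw [eq_div_iff (by norm_num)]; exact e
            rw [e2]
            field_simp
  have hE : |Rw U (Bx b (s + 1)) N (fun t => G t * (dd U a t * err t)) s0| ≤
      A * (s + 1) * (η * γ) := by
    have h1 : CV * (s + 1) * ∑ x ∈ Bx b (s + 1), g x ≤ CV * (s + 1) *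
        (γ * (CF * A * 8 ^ m / 2 ^ M * (CS * 4 ^ m') + CF * A * (CS * 2 / 2 ^ m'))) :=
      mul_le_mul_of_nonneg_left hE3 (by positivity)
    have h2 : CV * ((s : ℝ) + 1) *
        (γ * (CF * A * 8 ^ m / 2 ^ M * (CS * 4 ^ m') + CF * A * (CS * 2 / 2 ^ m'))) =
        A * (s + 1) * γ * (CV * (CF * CS * 8 ^ m * 4 ^ m') / 2 ^ M + CV * (CF * CS * 2) / 2 ^ m') := by
      ring
    have h3 : A * ((s : ℝ) + 1) * γ * (CV * (CF * CS * 8 ^ m * 4 ^ m') / 2 ^ M +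
        CV * (CF * CS * 2) / 2 ^ m') ≤ A * (s + 1) * γ * η := by
      refine mul_le_mul_of_nonneg_left ?_ (by positivity)
      linarith
    calc _ ≤ _ := hE1
      _ ≤ _ := hE2
      _ ≤ _ := h1
      _ = _ := h2
      _ ≤ _ := h3
      _ = A * (s + 1) * (η * γ) := by ring
  -- the main term
  set Z := γ + ∑ x ∈ Bx b (s + 1), δ x + ∑ x ∈ Bx b (s + 1), ρ x * Gk b k x with hZ
  have hZ0 : 0 ≤ Z := by
    have h1 : 0 ≤ ∑ x ∈ Bx b (s + 1), δ x := Finset.sum_nonneg fun x _ => hδ x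
    have h2 : 0 ≤ ∑ x ∈ Bx b (s + 1), ρ x * Gk b k x :=
      Finset.sum_nonneg fun x _ => mul_nonneg (hρ x) (Gk_nonneg b k x)
    linarith
  have hcell : ∀ α ∈ I, |Rw U (Bx b (s + 1)) N (fun t => G t * (dd U a t *
        (Uc S b k v (2 ^ (k - M)) α t * va Φ b m m' k (cor (2 ^ (k - M)) α) t.1))) s0| ≤
      CL * A' / k * (s + 1) * (A * (D * Z)) := by
    intro α _
    exact cell hINC hDRG hDat hCS0 hCL0 hCF0 hA'0
      (hL E ι U a S φ Φ k1 hDat hsc) (by omega) hk1 (by omega) (hcard k) (hS8 k m') N s0 hv hG hδ hρ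
      hdG hiG ((Bx b k).filter (fun z => cel (2 ^ (k - M)) z = α)) (Finset.filter_subset _ _)
      (fun t => (hdec t).1 α) _ (hW a φ Φ k1 hsc k hkm (cor (2 ^ (k - M)) α))
  have hk0 : (0 : ℝ) < k := by exact_mod_cast hk1
  have hmain : |∑ α ∈ I, Rw U (Bx b (s + 1)) N (fun t => G t * (dd U a t *
        (Uc S b k v (2 ^ (k - M)) α t * va Φ b m m' k (cor (2 ^ (k - M)) α) t.1))) s0| ≤
      A * (s + 1) * ((n : ℝ) / k * Z) := by
    refine (Finset.abs_sum_le_sum_abs _ _).trans ?_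
    refine (Finset.sum_le_sum hcell).trans ?_
    rw [Finset.sum_const, nsmul_eq_mul]
    have h1 : (I.card : ℝ) * (CL * A' / k * (s + 1) * (A * (D * Z))) ≤
        CF * 4 ^ M * (CL * A' / k * (s + 1) * (A * (D * Z))) :=
      mul_le_mul_of_nonneg_right hcells (by positivity)
    have h2 : CF * 4 ^ M * (CL * A' / k * ((s : ℝ) + 1) * (A * (D * Z))) =
        A * (s + 1) * ((CF * 4 ^ M * (CL * A' * D)) / k * Z) := by
      ring
    have h3 : (CF * 4 ^ M * (CL * A' * D)) / k ≤ (n : ℝ) / k := by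
      apply div_le_div_of_nonneg_right _ hk0.le
      have : (n0 : ℝ) ≤ n := by exact_mod_cast hn1
      linarith
    refine h1.trans ?_
    rw [h2]
    refine mul_le_mul_of_nonneg_left ?_ (by positivity)
    exact mul_le_mul_of_nonneg_right h3 hZ0
  refine (abs_add_le _ _).trans ?_
  have : A * ((s : ℝ) + 1) * (η * γ + (n : ℝ) / k * Z) = A * (s + 1) * (η * γ) +
      A * (s + 1) * ((n : ℝ) / k * Z) := by ring
  rw [this]
  exact add_le_add hE hmain

end Pool.Agent.Helper77.MKV
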